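import Mathlib

/-!
# Continuous-time chains on a finite set: exact small-time bounds

`M` is a nonnegative matrix with constant row sums `c`, and `S t = exp (t • (M - c • 1))`.
-/

set_option autoImplicit false

open Finset

namespace Pool.Agent.Y989.IS

section

variable {Ω : Type} [Fintype Ω] [DecidableEq Ω]

set_option backward.isDefEq.respectTransparency false in
open scoped Matrix.Norms.Operator in
theorem hasSum_exp_mat (M : Matrix Ω Ω ℝ) (t : ℝ) :
    HasSum (fun n : ℕ => ((n.factorial : ℝ)⁻¹ * t ^ n) • M ^ n) (NormedSpace.exp (t • M)) := by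
  have h := NormedSpace.exp_series_hasSum_exp' (𝕂 := ℝ) (t • M)
  have e : (fun n : ℕ => ((n.factorial : ℝ)⁻¹ * t ^ n) • M ^ n) =
      fun n : ℕ => ((n.factorial : ℝ)⁻¹) • (t • M) ^ n := by
    funext n
    rw [smul_pow, smul_smul]
  rw [e]
  exact h

theorem hasSum_exp_entry (M : Matrix Ω Ω ℝ) (t : ℝ) (x y : Ω) :
    HasSum (fun n : ℕ => (n.factorial : ℝ)⁻¹ * t ^ n * (M ^ n) x y)
      (NormedSpace.exp (t • M) x y) := by
  have h1 := Pi.hasSum.1 (Pi.hasSum.1 (hasSum_exp_mat M t) x) y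
  simpa using h1

theorem hasSum_exp_sum (M : Matrix Ω Ω ℝ) (t : ℝ) (x : Ω) (A : Finset Ω) :
    HasSum (fun n : ℕ => (n.factorial : ℝ)⁻¹ * t ^ n * ∑ y ∈ A, (M ^ n) x y)
      (∑ y ∈ A, NormedSpace.exp (t • M) x y) := by
  have := hasSum_sum (f := fun (y : Ω) (n : ℕ) =>
    (n.factorial : ℝ)⁻¹ * t ^ n * (M ^ n) x y) (a := fun y => NormedSpace.exp (t • M) x y)
    (s := A) (fun y _ => hasSum_exp_entry M t x y)
  simp only [Finset.mul_sum]
  exact this

theorem hasSum_exp_real (t : ℝ) : HasSum (fun n : ℕ => (n.factorial : ℝ)⁻¹ * t ^ n) (Real.exp t) := by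
  have h := NormedSpace.exp_series_hasSum_exp' (𝕂 := ℝ) t
  rw [← Real.exp_eq_exp_ℝ] at h
  simpa [smul_eq_mul] using h

/-- `exp (t • (M - c • 1)) = exp (-c t) • exp (t • M)`. -/
theorem exp_shift (M : Matrix Ω Ω ℝ) (c t : ℝ) (x y : Ω) :
    NormedSpace.exp (t • (M - c • (1 : Matrix Ω Ω ℝ))) x y =
      Real.exp (-(c * t)) * NormedSpace.exp (t • M) x y := by
  have h1 : t • (M - c • (1 : Matrix Ω Ω ℝ)) =
      t • M + Matrix.diagonal (fun _ : Ω => -(c * t)) := by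
    rw [smul_sub, sub_eq_add_neg]
    congr 1
    ext i j
    by_cases h : i = j
    · subst h; simp; ring
    · simp [Matrix.one_apply_ne h, Matrix.diagonal_apply_ne _ h]
  have hc : Commute (t • M) (Matrix.diagonal (fun _ : Ω => -(c * t))) := by
    show _ * _ = _ * _
    ext i j
    rw [Matrix.mul_diagonal, Matrix.diagonal_mul, mul_comm]
  rw [h1, Matrix.exp_add_of_commute _ _ hc, Matrix.exp_diagonal]
  rw [Matrix.mul_diagonal, mul_comm]
  congr 1
  rw [Pi.coe_exp, Real.exp_eq_exp_ℝ]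

variable {M : Matrix Ω Ω ℝ} (hM : ∀ x y, 0 ≤ M x y) {c : ℝ} (hc : ∀ x, ∑ y, M x y = c)

include hM in
theorem pow_nn (n : ℕ) (x y : Ω) : 0 ≤ (M ^ n) x y := by
  induction n generalizing x y with
  | zero =>
    rw [pow_zero, Matrix.one_apply]
    split_ifs <;> norm_num
  | succ n ih =>
    rw [pow_succ, Matrix.mul_apply]
    exact Finset.sum_nonneg fun z _ => mul_nonneg (ih x z) (hM z y)

include hc in
theorem pow_row (n : ℕ) (x : Ω) : ∑ y, (M ^ n) x y = c ^ n := by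
  induction n generalizing x with
  | zero => simp [Matrix.one_apply]
  | succ n ih =>
    simp_rw [pow_succ, Matrix.mul_apply]
    rw [Finset.sum_comm]
    simp_rw [← Finset.mul_sum, hc, ← Finset.sum_mul, ih]

/-- the semigroup -/
noncomputable def sg (M : Matrix Ω Ω ℝ) (c t : ℝ) : Matrix Ω Ω ℝ :=
  NormedSpace.exp (t • (M - c • (1 : Matrix Ω Ω ℝ)))

include hM in
theorem sg_nonneg {t : ℝ} (ht : 0 ≤ t) (x y : Ω) : 0 ≤ sg M c t x y := by
  unfold sg
  rw [exp_shift]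
  refine mul_nonneg (Real.exp_pos _).le ((hasSum_exp_entry M t x y).nonneg fun n => ?_)
  have := pow_nn hM n x y
  positivity

include hc in
theorem sg_row (t : ℝ) (x : Ω) : ∑ y, sg M c t x y = 1 := by
  unfold sg
  simp_rw [exp_shift, ← Finset.mul_sum]
  have h := hasSum_exp_sum M t x univ
  simp only [pow_row hc] at h
  have h2 := hasSum_exp_real (c * t)
  have e : (fun n : ℕ => (n.factorial : ℝ)⁻¹ * t ^ n * c ^ n) =
      fun n : ℕ => (n.factorial : ℝ)⁻¹ * (c * t) ^ n := by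
    funext n; rw [mul_pow]; ring
  rw [e] at h
  rw [h.unique h2, ← Real.exp_add]
  simp

include hM in
theorem sg_lower {t : ℝ} (ht : 0 ≤ t) (x y : Ω) (k : ℕ) :
    Real.exp (-(c * t)) * ((k.factorial : ℝ)⁻¹ * t ^ k * (M ^ k) x y) ≤ sg M c t x y := by
  unfold sg
  rw [exp_shift]
  refine mul_le_mul_of_nonneg_left ?_ (Real.exp_pos _).le
  refine le_hasSum (hasSum_exp_entry M t x y) k fun n _ => ?_
  have := pow_nn hM n x y
  positivity

include hM hc in
theorem sg_upper (hc0 : 0 ≤ c) {t : ℝ} (ht : 0 ≤ t) (ht1 : t ≤ 1) (x : Ω) (A : Finset Ω) (m : ℕ)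
    (h0 : ∀ k < m, ∑ y ∈ A, (M ^ k) x y = 0) :
    ∑ y ∈ A, sg M c t x y ≤
      (m.factorial : ℝ)⁻¹ * t ^ m * ∑ y ∈ A, (M ^ m) x y + t ^ (m + 1) * Real.exp c := by
  have h1 : ∑ y ∈ A, sg M c t x y = Real.exp (-(c * t)) * ∑ y ∈ A, NormedSpace.exp (t • M) x y := by
    unfold sg
    simp_rw [exp_shift, ← Finset.mul_sum]
  have hnn : 0 ≤ ∑ y ∈ A, NormedSpace.exp (t • M) x y := by
    refine (hasSum_exp_sum M t x A).nonneg fun n => ?_
    have : 0 ≤ ∑ y ∈ A, (M ^ n) x y := Finset.sum_nonneg fun y _ => pow_nn hM n x y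
    positivity
  have h2 : Real.exp (-(c * t)) ≤ 1 := by
    rw [Real.exp_le_one_iff]
    have := mul_nonneg hc0 ht
    linarith
  rw [h1]
  refine (mul_le_of_le_one_left hnn h2).trans ?_
  have hs := hasSum_exp_sum M t x A
  have hg1 : HasSum (fun n : ℕ => if n = m then (m.factorial : ℝ)⁻¹ * t ^ m *
      ∑ y ∈ A, (M ^ m) x y else 0) ((m.factorial : ℝ)⁻¹ * t ^ m * ∑ y ∈ A, (M ^ m) x y) := by
    have := hasSum_ite_eq m ((m.factorial : ℝ)⁻¹ * t ^ m * ∑ y ∈ A, (M ^ m) x y)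
    exact this
  have hg2 := (hasSum_exp_real c).mul_left (t ^ (m + 1))
  refine hasSum_le (fun n => ?_) hs (hg1.add hg2)
  have hA0 : 0 ≤ ∑ y ∈ A, (M ^ n) x y := Finset.sum_nonneg fun y _ => pow_nn hM n x y
  have hrest : 0 ≤ t ^ (m + 1) * ((n.factorial : ℝ)⁻¹ * c ^ n) := by positivity
  rcases lt_trichotomy n m with h | h | h
  · rw [h0 n h, mul_zero, if_neg h.ne, zero_add]
    exact hrest
  · subst h
    rw [if_pos rfl]
    linarith
  · rw [if_neg (by omega), zero_add]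
    have hA : ∑ y ∈ A, (M ^ n) x y ≤ c ^ n := by
      rw [← pow_row hc n x]
      exact Finset.sum_le_sum_of_subset_of_nonneg (Finset.subset_univ A)
        fun y _ _ => pow_nn hM n x y
    have ht2 : t ^ n ≤ t ^ (m + 1) := pow_le_pow_of_le_one ht ht1 h
    have h3 : (n.factorial : ℝ)⁻¹ * t ^ n * ∑ y ∈ A, (M ^ n) x y ≤
        (n.factorial : ℝ)⁻¹ * t ^ (m + 1) * c ^ n := by
      gcongr
    calc _ ≤ _ := h3
      _ = _ := by ring

end

end Pool.Agent.Y989.IS
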