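import Mathlib
import Pool.Agent.Y989.IS.Gen

/-!
# Heat-bath (Glauber) dynamics of the Ising model: path expansion at small times
-/

set_option autoImplicit false
set_option linter.unusedSectionVars false

open Finset

namespace Pool.Agent.Y989.IS

/-- the value of a spin -/
def spin (b : Bool) : ℝ := if b then 1 else -1

section

variable {V : Type} [Fintype V] [DecidableEq V] (G : SimpleGraph V) [DecidableRel G.Adj] (β : ℝ)

/-- Gibbs weight -/
noncomputable def weight (σ : V → Bool) : ℝ :=
  Real.exp (β * ((1 / 2) * ∑ i, ∑ j, if G.Adj i j then spin (σ i) * spin (σ j) else 0))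

/-- one update at `v` -/
noncomputable def heatBath (v : V) : Matrix (V → Bool) (V → Bool) ℝ := fun σ τ =>
  if ∀ u, u ≠ v → τ u = σ u then
    weight G β τ / (weight G β (Function.update σ v true) + weight G β (Function.update σ v false))
  else 0

/-- continuous-time kernel -/
noncomputable def kernel (t : ℝ) : Matrix (V → Bool) (V → Bool) ℝ :=
  NormedSpace.exp (t • ∑ v, (heatBath G β v - 1))

/-- sum of all updates -/
noncomputable def MM : Matrix (V → Bool) (V → Bool) ℝ := ∑ v, heatBath G β v

theorem kernel_eq (t : ℝ) : kernel G β t = sg (MM G β) (Fintype.card V) t := by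
  unfold kernel sg MM
  rw [Finset.sum_sub_distrib]
  congr 3
  rw [Finset.sum_const, Finset.card_univ]
  ext i j
  simp

theorem weight_pos (σ : V → Bool) : 0 < weight G β σ := Real.exp_pos _

/-- flip the spin at `v` -/
def fl (v : V) (τ : V → Bool) : V → Bool := Function.update τ v (!τ v)

omit [Fintype V] in
theorem fl_fl (v : V) (τ : V → Bool) : fl v (fl v τ) = τ := by
  unfold fl
  funext u
  by_cases h : u = v
  · subst h; simp
  · simp [h]

omit [Fintype V] in
theorem fl_same (v : V) (τ : V → Bool) : fl v τ v = !τ v := by simp [fl]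

omit [Fintype V] in
theorem fl_ne {v u : V} (h : u ≠ v) (τ : V → Bool) : fl v τ u = τ u := by simp [fl, h]

omit [Fintype V] in
theorem agree_iff (v : V) (ρ τ : V → Bool) :
    (∀ u, u ≠ v → τ u = ρ u) ↔ (ρ = τ ∨ ρ = fl v τ) := by
  constructor
  · intro h
    by_cases hv : ρ v = τ v
    · left
      funext u
      by_cases hu : u = v
      · subst hu; exact hv
      · exact (h u hu).symm
    · right
      funext u
      by_cases hu : u = v
      · subst hu
        rw [fl_same]
        cases h1 : ρ u <;> cases h2 : τ u <;> simp_all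
      · rw [fl_ne hu]; exact (h u hu).symm
  · rintro (h | h) u hu
    · rw [h]
    · rw [h, fl_ne hu]

theorem heatBath_nonneg (v : V) (σ τ : V → Bool) : 0 ≤ heatBath G β v σ τ := by
  unfold heatBath
  split_ifs
  · have h1 := weight_pos G β τ
    have h2 := weight_pos G β (Function.update σ v true)
    have h3 := weight_pos G β (Function.update σ v false)
    positivity
  · exact le_rfl

theorem Z_eq (v : V) (σ : V → Bool) :
    weight G β (Function.update σ v true) + weight G β (Function.update σ v false) =
      weight G β σ + weight G β (fl v σ) := by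
  cases h : σ v
  · have h1 : Function.update σ v false = σ := by
      rw [← h]; exact Function.update_eq_self v σ
    have h2 : fl v σ = Function.update σ v true := by unfold fl; rw [h]; rfl
    rw [h1, h2, add_comm]
  · have h1 : Function.update σ v true = σ := by
      rw [← h]; exact Function.update_eq_self v σ
    have h2 : fl v σ = Function.update σ v false := by unfold fl; rw [h]; rfl
    rw [h1, h2]

omit [Fintype V] in
theorem fl_ne_self (v : V) (σ : V → Bool) : fl v σ ≠ σ := by
  intro h
  have := congrFun h v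
  rw [fl_same] at this
  cases h2 : σ v <;> simp_all

theorem heatBath_row (v : V) (σ : V → Bool) : ∑ τ, heatBath G β v σ τ = 1 := by
  have h0 : ∀ τ, heatBath G β v σ τ ≠ 0 → τ = σ ∨ τ = fl v σ := by
    intro τ h
    unfold heatBath at h
    split_ifs at h with h1
    · have h2 : ∀ u, u ≠ v → σ u = τ u := fun u hu => (h1 u hu).symm
      exact (agree_iff v τ σ).1 h2
    · exact absurd rfl h
  have h1 : ∑ τ, heatBath G β v σ τ = ∑ τ ∈ {σ, fl v σ}, heatBath G β v σ τ := by
    symm
    apply Finset.sum_subset (Finset.subset_univ _)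
    intro τ _ hτ
    by_contra h
    apply hτ
    rcases h0 τ h with h | h
    · simp [h]
    · simp [h]
  rw [h1, Finset.sum_pair (fl_ne_self v σ).symm]
  unfold heatBath
  rw [if_pos (fun u _ => rfl), if_pos (fun u hu => fl_ne hu σ), Z_eq]
  have h1 := weight_pos G β σ
  have h2 := weight_pos G β (fl v σ)
  field_simp

theorem MM_nonneg (σ τ : V → Bool) : 0 ≤ MM G β σ τ := by
  unfold MM
  rw [Matrix.sum_apply]
  exact Finset.sum_nonneg fun v _ => heatBath_nonneg G β v σ τ

theorem MM_row (σ : V → Bool) : ∑ τ, MM G β σ τ = Fintype.card V := by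
  unfold MM
  simp_rw [Matrix.sum_apply]
  rw [Finset.sum_comm]
  simp_rw [heatBath_row]
  simp

/-- the rate at which the last spin flip of a path ending in `τ` occurs -/
theorem heatBath_fl (v : V) (τ : V → Bool) :
    heatBath G β v (fl v τ) τ = weight G β τ / (weight G β τ + weight G β (fl v τ)) := by
  unfold heatBath
  rw [if_pos (fun u hu => (fl_ne hu τ).symm), Z_eq, fl_fl, add_comm]

/-- the set of sites where `τ` differs from `σ` -/
def D (σ τ : V → Bool) : Finset V := univ.filter fun u => τ u ≠ σ u

theorem mem_D {σ τ : V → Bool} {u : V} : u ∈ D σ τ ↔ τ u ≠ σ u := by simp [D]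

theorem D_fl_mem {σ τ : V → Bool} {v : V} (h : v ∈ D σ τ) : D σ (fl v τ) = (D σ τ).erase v := by
  ext u
  rw [mem_D, Finset.mem_erase, mem_D]
  rw [mem_D] at h
  by_cases hu : u = v
  · subst hu
    rw [fl_same]
    cases h1 : τ u <;> cases h2 : σ u <;> simp_all
  · rw [fl_ne hu]
    simp [hu]

theorem D_fl_notMem {σ τ : V → Bool} {v : V} (h : v ∉ D σ τ) : D σ (fl v τ) = insert v (D σ τ) := by
  ext u
  rw [mem_D, Finset.mem_insert, mem_D]
  rw [mem_D] at h
  by_cases hu : u = v
  · subst hu
    rw [fl_same]
    cases h1 : τ u <;> cases h2 : σ u <;> simp_all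
  · rw [fl_ne hu]
    simp [hu]

theorem sum_two (k : ℕ) (v : V) (σ τ : V → Bool) :
    ∑ ρ, (MM G β ^ k) σ ρ * heatBath G β v ρ τ =
      (MM G β ^ k) σ τ * heatBath G β v τ τ +
        (MM G β ^ k) σ (fl v τ) * heatBath G β v (fl v τ) τ := by
  have h1 : ∑ ρ, (MM G β ^ k) σ ρ * heatBath G β v ρ τ =
      ∑ ρ ∈ {τ, fl v τ}, (MM G β ^ k) σ ρ * heatBath G β v ρ τ := by
    symm
    apply Finset.sum_subset (Finset.subset_univ _)
    intro ρ _ hρ
    have : heatBath G β v ρ τ = 0 := by
      unfold heatBath
      rw [if_neg]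
      intro h
      apply hρ
      rcases (agree_iff v ρ τ).1 h with h | h
      · simp [h]
      · simp [h]
    rw [this, mul_zero]
  rw [h1, Finset.sum_pair (fl_ne_self v τ).symm]

theorem pow_succ_apply (k : ℕ) (σ τ : V → Bool) :
    (MM G β ^ (k + 1)) σ τ = ∑ v, ((MM G β ^ k) σ τ * heatBath G β v τ τ +
        (MM G β ^ k) σ (fl v τ) * heatBath G β v (fl v τ) τ) := by
  rw [pow_succ, Matrix.mul_apply]
  simp_rw [← sum_two]
  rw [Finset.sum_comm]
  refine Finset.sum_congr rfl fun ρ _ => ?_
  rw [← Finset.mul_sum]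
  congr 1
  unfold MM
  rw [Matrix.sum_apply]

theorem pow_eq_zero (k : ℕ) (σ τ : V → Bool) (h : k < (D σ τ).card) : (MM G β ^ k) σ τ = 0 := by
  induction k generalizing τ with
  | zero =>
    rw [pow_zero, Matrix.one_apply, if_neg]
    rintro rfl
    simp [D] at h
  | succ k ih =>
    rw [pow_succ_apply]
    refine Finset.sum_eq_zero fun v _ => ?_
    rw [ih τ (by omega), ih (fl v τ), zero_mul, zero_mul, add_zero]
    by_cases hv : v ∈ D σ τ
    · rw [D_fl_mem hv, Finset.card_erase_of_mem hv]; omega
    · rw [D_fl_notMem hv, Finset.card_insert_of_notMem hv]; omega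

theorem pow_succ_card (k : ℕ) (σ τ : V → Bool) (h : (D σ τ).card = k + 1) :
    (MM G β ^ (k + 1)) σ τ =
      ∑ v ∈ D σ τ, (MM G β ^ k) σ (fl v τ) * heatBath G β v (fl v τ) τ := by
  rw [pow_succ_apply]
  symm
  rw [← Finset.sum_subset (Finset.subset_univ (D σ τ))]
  · refine Finset.sum_congr rfl fun v _ => ?_
    rw [pow_eq_zero G β k σ τ (by omega), zero_mul, zero_add]
  · intro v _ hv
    rw [pow_eq_zero G β k σ τ (by omega), pow_eq_zero G β k σ (fl v τ), zero_mul, zero_mul,
      add_zero]
    rw [D_fl_notMem hv, Finset.card_insert_of_notMem hv]; omega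

theorem card_fl {k : ℕ} {σ τ : V → Bool} (h : (D σ τ).card = k + 1) {v : V} (hv : v ∈ D σ τ) :
    (D σ (fl v τ)).card = k := by
  rw [D_fl_mem hv, Finset.card_erase_of_mem hv]; omega

theorem hb_pos (v : V) (τ : V → Bool) : 0 < heatBath G β v (fl v τ) τ := by
  rw [heatBath_fl]
  have h1 := weight_pos G β τ
  have h2 := weight_pos G β (fl v τ)
  positivity

theorem hb_le_one (v : V) (τ : V → Bool) : heatBath G β v (fl v τ) τ ≤ 1 := by
  rw [heatBath_fl]
  have h1 := weight_pos G β τ
  have h2 := weight_pos G β (fl v τ)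
  rw [div_le_one (by positivity)]
  linarith

theorem hb_le_ratio (v : V) (τ : V → Bool) :
    heatBath G β v (fl v τ) τ ≤ weight G β τ / weight G β (fl v τ) := by
  rw [heatBath_fl]
  have h1 := weight_pos G β τ
  have h2 := weight_pos G β (fl v τ)
  apply div_le_div_of_nonneg_left h1.le h2
  linarith

/-- Positivity of the leading coefficient. -/
theorem pow_card_pos (k : ℕ) (σ τ : V → Bool) (h : (D σ τ).card = k) : 0 < (MM G β ^ k) σ τ := by
  induction k generalizing τ with
  | zero =>
    have : τ = σ := by
      funext u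
      by_contra hu
      have : u ∈ D σ τ := mem_D.2 hu
      rw [Finset.card_eq_zero] at h
      rw [h] at this
      exact absurd this (Finset.notMem_empty u)
    subst this
    simp
  | succ k ih =>
    rw [pow_succ_card G β k σ τ h]
    apply Finset.sum_pos
    · intro v hv
      exact mul_pos (ih _ (card_fl h hv)) (hb_pos G β v τ)
    · rw [← Finset.card_pos]; omega

/-- Energy bound. -/
theorem pow_card_le (k : ℕ) (σ τ : V → Bool) (h : (D σ τ).card = k) :
    (MM G β ^ k) σ τ ≤ k.factorial * (weight G β τ / weight G β σ) := by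
  induction k generalizing τ with
  | zero =>
    have : τ = σ := by
      funext u
      by_contra hu
      have : u ∈ D σ τ := mem_D.2 hu
      rw [Finset.card_eq_zero] at h
      rw [h] at this
      exact absurd this (Finset.notMem_empty u)
    subst this
    have := weight_pos G β τ
    simp
    rw [div_self this.ne']
  | succ k ih =>
    rw [pow_succ_card G β k σ τ h]
    have hw := weight_pos G β τ
    have hs := weight_pos G β σ
    have : ∀ v ∈ D σ τ, (MM G β ^ k) σ (fl v τ) * heatBath G β v (fl v τ) τ ≤
        k.factorial * (weight G β τ / weight G β σ) := by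
      intro v hv
      have h1 := ih _ (card_fl h hv)
      have h2 := hb_le_ratio G β v τ
      have h3 := weight_pos G β (fl v τ)
      calc _ ≤ (k.factorial * (weight G β (fl v τ) / weight G β σ)) *
            (weight G β τ / weight G β (fl v τ)) := by
            refine mul_le_mul h1 h2 (hb_pos G β v τ).le ?_
            positivity
        _ = _ := by field_simp
    refine (Finset.sum_le_card_nsmul _ _ _ this).trans (le_of_eq ?_)
    rw [h, nsmul_eq_mul, Nat.factorial_succ]
    push_cast
    ring

/-- Generic induction: a bound that passes through one more flip. -/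
theorem pow_card_step (k : ℕ) (σ τ : V → Bool) (h : (D σ τ).card = k + 1) {a : ℝ}
    (ha : ∀ v ∈ D σ τ, (MM G β ^ k) σ (fl v τ) * heatBath G β v (fl v τ) τ ≤ a) :
    (MM G β ^ (k + 1)) σ τ ≤ (k + 1) * a := by
  rw [pow_succ_card G β k σ τ h]
  refine (Finset.sum_le_card_nsmul _ _ _ ha).trans (le_of_eq ?_)
  rw [h, nsmul_eq_mul]
  push_cast
  ring

/-! ### the global spin flip -/

/-- global flip -/
def neg (σ : V → Bool) : V → Bool := fun v => !σ v

omit [Fintype V] [DecidableEq V] in
theorem neg_neg' (σ : V → Bool) : neg (neg σ) = σ := by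
  funext v; simp [neg]

theorem spin_not (b : Bool) : spin (!b) = - spin b := by
  cases b <;> simp [spin]

theorem weight_neg (σ : V → Bool) : weight G β (neg σ) = weight G β σ := by
  unfold weight neg
  simp only [spin_not, neg_mul_neg]

theorem heatBath_neg (v : V) (σ τ : V → Bool) :
    heatBath G β v (neg σ) (neg τ) = heatBath G β v σ τ := by
  unfold heatBath
  have h1 : (∀ u, u ≠ v → neg τ u = neg σ u) ↔ (∀ u, u ≠ v → τ u = σ u) := by
    refine forall_congr' fun u => imp_congr_right fun _ => ?_
    unfold neg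
    cases τ u <;> cases σ u <;> simp
  by_cases h : ∀ u, u ≠ v → τ u = σ u
  · rw [if_pos (h1.2 h), if_pos h, weight_neg, Z_eq, Z_eq]
    have h2 : fl v (neg σ) = neg (fl v σ) := by
      funext u
      by_cases hu : u = v
      · subst hu; simp [fl, neg]
      · simp [fl, neg, hu]
    rw [h2, weight_neg, weight_neg]
  · rw [if_neg h, if_neg (fun h' => h (h1.1 h'))]

theorem MM_neg (σ τ : V → Bool) : MM G β (neg σ) (neg τ) = MM G β σ τ := by
  unfold MM
  rw [Matrix.sum_apply, Matrix.sum_apply]
  exact Finset.sum_congr rfl fun v _ => heatBath_neg G β v σ τ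

/-- global flip as an equivalence -/
def negEquiv : (V → Bool) ≃ (V → Bool) := ⟨neg, neg, neg_neg', neg_neg'⟩

theorem pow_neg' (k : ℕ) (σ τ : V → Bool) :
    (MM G β ^ k) (neg σ) (neg τ) = (MM G β ^ k) σ τ := by
  induction k generalizing τ with
  | zero =>
    rw [pow_zero, Matrix.one_apply, Matrix.one_apply]
    by_cases h : σ = τ
    · subst h; simp
    · rw [if_neg h, if_neg]
      intro h'
      exact h (by rw [← neg_neg' σ, h', neg_neg'])
  | succ k ih =>
    rw [pow_succ, Matrix.mul_apply, Matrix.mul_apply]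
    rw [← Equiv.sum_comp (negEquiv (V := V))]
    refine Finset.sum_congr rfl fun ρ _ => ?_
    change (MM G β ^ k) (neg σ) (neg ρ) * MM G β (neg ρ) (neg τ) = _
    rw [ih, MM_neg]

end

end Pool.Agent.Y989.IS
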