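import Mathlib
import Pool.Agent.Y989.IS.Flip

/-!
# The graph: `K₅` with four pendant vertices attached to one of its vertices
-/

set_option autoImplicit false
set_option linter.unusedSectionVars false

open Finset

namespace Pool.Agent.Y989.IS

/-- The complete graph on `{0,1,2,3,4}` together with four pendant vertices `5,6,7,8`
attached to `0`. -/
def G9 : SimpleGraph (Fin 9) where
  Adj i j := i ≠ j ∧ (i.val < 5 ∧ j.val < 5 ∨ i.val = 0 ∨ j.val = 0)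
  symm := ⟨fun i j h => ⟨h.1.symm, by
    rcases h.2 with h | h | h
    · exact Or.inl ⟨h.2, h.1⟩
    · exact Or.inr (Or.inr h)
    · exact Or.inr (Or.inl h)⟩⟩
  loopless := ⟨fun i h => h.1 rfl⟩

instance : DecidableRel G9.Adj := fun i j =>
  inferInstanceAs (Decidable (i ≠ j ∧ (i.val < 5 ∧ j.val < 5 ∨ i.val = 0 ∨ j.val = 0)))

/-- integer spin -/
def sz (b : Bool) : ℤ := if b then 1 else -1

theorem sz_cast (b : Bool) : ((sz b : ℤ) : ℝ) = spin b := by cases b <;> simp [sz, spin]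

/-- twice the energy sum -/
def HZ (σ : Fin 9 → Bool) : ℤ := ∑ i, ∑ j, if G9.Adj i j then sz (σ i) * sz (σ j) else 0

theorem weight_HZ (β : ℝ) (σ : Fin 9 → Bool) :
    weight G9 β σ = Real.exp (β * ((1 / 2) * (HZ σ : ℝ))) := by
  unfold weight HZ
  congr 3
  push_cast
  refine Finset.sum_congr rfl fun i _ => Finset.sum_congr rfl fun j _ => ?_
  split_ifs
  · rw [← sz_cast, ← sz_cast]
  · rfl

/-- the small parameter -/
noncomputable def qq (β : ℝ) : ℝ := Real.exp (-2 * β)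

theorem qq_pos (β : ℝ) : 0 < qq β := Real.exp_pos _

theorem qq_le_one {β : ℝ} (hβ : 0 ≤ β) : qq β ≤ 1 := by
  unfold qq; rw [Real.exp_le_one_iff]; linarith

theorem ratio_le {β : ℝ} (hβ : 0 ≤ β) {σ τ : Fin 9 → Bool} (d : ℕ)
    (h : HZ τ + 4 * d ≤ HZ σ) : weight G9 β τ / weight G9 β σ ≤ qq β ^ d := by
  rw [weight_HZ, weight_HZ, ← Real.exp_sub, qq, ← Real.exp_nat_mul, Real.exp_le_exp]
  have h' : (HZ τ : ℝ) + 4 * d ≤ HZ σ := by exact_mod_cast h
  nlinarith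

theorem hb_le {β : ℝ} (hβ : 0 ≤ β) {v : Fin 9} {τ : Fin 9 → Bool} (d : ℕ)
    (h : HZ τ + 4 * d ≤ HZ (fl v τ)) : heatBath G9 β v (fl v τ) τ ≤ qq β ^ d :=
  (hb_le_ratio G9 β v τ).trans (ratio_le hβ d h)

theorem hb_half (β : ℝ) {v : Fin 9} {τ : Fin 9 → Bool}
    (h : HZ τ = HZ (fl v τ)) : heatBath G9 β v (fl v τ) τ = 1 / 2 := by
  rw [heatBath_fl, weight_HZ, weight_HZ, ← h]
  have := Real.exp_pos (β * ((1 / 2) * (HZ τ : ℝ)))
  field_simp
  norm_num

theorem hb_one (β : ℝ) {v : Fin 9} {τ : Fin 9 → Bool}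
    (h : HZ τ + 4 = HZ (fl v τ)) : heatBath G9 β v (fl v τ) τ = qq β / (1 + qq β) := by
  rw [heatBath_fl, weight_HZ, weight_HZ, ← h]
  have h1 : Real.exp (β * ((1 / 2) * (HZ τ : ℝ))) =
      qq β * Real.exp (β * ((1 / 2) * ((HZ τ + 4 : ℤ) : ℝ))) := by
    rw [qq, ← Real.exp_add]
    congr 1
    push_cast
    ring
  rw [h1]
  have := Real.exp_pos (β * ((1 / 2) * ((HZ τ + 4 : ℤ) : ℝ)))
  have := qq_pos β
  field_simp
  ring

theorem forall_vec {P : (Fin 9 → Bool) → Prop}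
    (h : ∀ a0 a1 a2 a3 a4 a5 a6 a7 a8 : Bool, P ![a0, a1, a2, a3, a4, a5, a6, a7, a8])
    (τ : Fin 9 → Bool) : P τ := by
  have := h (τ 0) (τ 1) (τ 2) (τ 3) (τ 4) (τ 5) (τ 6) (τ 7) (τ 8)
  have e : ![τ 0, τ 1, τ 2, τ 3, τ 4, τ 5, τ 6, τ 7, τ 8] = τ := by
    funext i
    fin_cases i <;> rfl
  rwa [e] at this

/-- one pendant vertex (`8`) is minus, everything else is plus -/
def x0 : Fin 9 → Bool := fun v => decide (v ≠ 8)

/-- all plus -/
def pl : Fin 9 → Bool := fun _ => true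

/-- flip a set -/
def fs (σ : Fin 9 → Bool) (S : List (Fin 9)) : Fin 9 → Bool :=
  fun v => if v ∈ S then !σ v else σ v

theorem HZ_x0 : HZ x0 = 24 := by decide +kernel

theorem F1 (τ : Fin 9 → Bool) :
    ((D x0 τ).filter (fun v => v.val < 5)).card = 2 → HZ τ + 4 * (5 : ℕ) ≤ HZ x0 := by
  rw [HZ_x0]
  revert τ
  refine forall_vec ?_
  decide +kernel

end Pool.Agent.Y989.IS
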