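import Mathlib
import Pool.Agent.Y989.IS.Est

/-!
# Leading coefficients of the transition probabilities
-/

set_option autoImplicit false

open Finset

namespace Pool.Agent.Y989.IS

/-- the critical configurations -/
def tB : Fin 9 → Bool := fs x0 [0, 5, 6, 7, 8]

theorem F2 (τ : Fin 9 → Bool) : (D x0 τ).card = 5 →
    (2 ≤ ((D x0 τ).filter (fun v => v.val < 5)).card ∨ τ = tB ∨
      HZ τ + 4 * (5 : ℕ) ≤ HZ x0) := by
  rw [HZ_x0]
  revert τ
  refine forall_vec ?_
  decide +kernel

theorem F3 (τ : Fin 9 → Bool) : (∀ u : Fin 9, u.val < 5 → τ u = true) → ∀ v : Fin 9, 5 ≤ v.val →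
    τ v = false → HZ τ + 4 = HZ (fl v τ) := by
  revert τ
  refine forall_vec ?_
  decide +kernel

/-- Barrier: flipping two vertices of the clique costs energy five. -/
theorem barrier {β : ℝ} (hβ : 0 ≤ β) (k : ℕ) (τ : Fin 9 → Bool) (h : (D x0 τ).card = k)
    (h2 : 2 ≤ ((D x0 τ).filter (fun v => v.val < 5)).card) :
    (MM G9 β ^ k) x0 τ ≤ k.factorial * qq β ^ 5 := by
  induction k generalizing τ with
  | zero =>
    have := Finset.card_filter_le (D x0 τ) (fun v => v.val < 5)
    omega
  | succ k ih =>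
    rcases h2.eq_or_lt with h3 | h3
    · refine (pow_card_le G9 β (k + 1) x0 τ h).trans ?_
      exact mul_le_mul_of_nonneg_left (ratio_le hβ 5 (F1 τ h3.symm)) (by positivity)
    · have := pow_card_step G9 β k x0 τ h (a := k.factorial * qq β ^ 5) (fun v hv => by
        have h4 : 2 ≤ ((D x0 (fl v τ)).filter (fun v => v.val < 5)).card := by
          rw [D_fl_mem hv, Finset.filter_erase]
          have := Finset.pred_card_le_card_erase (s := (D x0 τ).filter (fun v => v.val < 5)) (a := v)
          omega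
        have h5 := ih (fl v τ) (card_fl h hv) h4
        have h6 := hb_le_one G9 β v τ
        have h7 := hb_pos G9 β v τ
        have h8 := qq_pos β
        calc _ ≤ (k.factorial * qq β ^ 5) * 1 := by
              refine mul_le_mul h5 h6 h7.le ?_
              positivity
          _ = _ := mul_one _)
      refine this.trans (le_of_eq ?_)
      rw [Nat.factorial_succ]
      push_cast
      ring

/-- Flips of pendant vertices only, starting from `x0`. -/
theorem leaves_le {β : ℝ} (hβ : 0 ≤ β) (k : ℕ) (τ : Fin 9 → Bool) (h : (D x0 τ).card = k)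
    (h2 : ∀ u : Fin 9, u.val < 5 → τ u = true) :
    (MM G9 β ^ k) x0 τ ≤ k.factorial * qq β ^ ((D x0 τ).filter (fun v => v ≠ 8)).card := by
  induction k generalizing τ with
  | zero =>
    rw [Finset.card_eq_zero] at h
    have : τ = x0 := by
      funext u
      by_contra hu
      have : u ∈ D x0 τ := mem_D.2 hu
      rw [h] at this
      exact absurd this (Finset.notMem_empty u)
    rw [h]
    subst this
    simp
  | succ k ih =>
    have := pow_card_step G9 β k x0 τ h
      (a := k.factorial * qq β ^ ((D x0 τ).filter (fun v => v ≠ 8)).card) (fun v hv => by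
        have hv5 : 5 ≤ v.val := by
          by_contra hlt
          push Not at hlt
          have h3 := h2 v hlt
          rw [mem_D, h3] at hv
          apply hv
          have : v ≠ 8 := by rintro rfl; simp at hlt
          simp [x0, this]
        have h3 : ∀ u : Fin 9, u.val < 5 → fl v τ u = true := by
          intro u hu
          rw [fl_ne (by rintro rfl; omega)]
          exact h2 u hu
        have h5 := ih (fl v τ) (card_fl h hv) h3
        have h7 := hb_pos G9 β v τ
        have h8 := qq_pos β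
        by_cases hv8 : v = 8
        · have h6 := hb_le_one G9 β v τ
          have h9 : (D x0 (fl v τ)).filter (fun v => v ≠ 8) = (D x0 τ).filter (fun v => v ≠ 8) := by
            rw [D_fl_mem hv, Finset.filter_erase]
            apply Finset.erase_eq_of_notMem
            simp [hv8]
          rw [h9] at h5
          calc _ ≤ (k.factorial * qq β ^ ((D x0 τ).filter (fun v => v ≠ 8)).card) * 1 := by
                refine mul_le_mul h5 h6 h7.le ?_
                positivity
            _ = _ := mul_one _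
        · have hτv : τ v = false := by
            rw [mem_D] at hv
            simpa [x0, hv8] using hv
          have h6 := hb_le hβ (v := v) (τ := τ) 1 (by
            have := F3 τ h2 v hv5 hτv
            omega)
          have hm : v ∈ (D x0 τ).filter (fun v => v ≠ 8) := by simp [hv, hv8]
          have h9 : ((D x0 (fl v τ)).filter (fun v => v ≠ 8)).card + 1 =
              ((D x0 τ).filter (fun v => v ≠ 8)).card := by
            rw [D_fl_mem hv, Finset.filter_erase]
            exact Finset.card_erase_add_one hm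
          rw [← h9, pow_succ (qq β)]
          calc _ ≤ (k.factorial * qq β ^ ((D x0 (fl v τ)).filter (fun v => v ≠ 8)).card) *
                qq β ^ 1 := by
                refine mul_le_mul h5 h6 h7.le ?_
                positivity
            _ = _ := by ring)
    refine this.trans (le_of_eq ?_)
    rw [Nat.factorial_succ]
    push_cast
    ring

/-- Flips of pendant vertices only, starting from all plus. -/
theorem leaves_ge (β : ℝ) (k : ℕ) (τ : Fin 9 → Bool) (h : (D pl τ).card = k)
    (h2 : ∀ u : Fin 9, u.val < 5 → τ u = true) :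
    k.factorial * (qq β / (1 + qq β)) ^ k ≤ (MM G9 β ^ k) pl τ := by
  induction k generalizing τ with
  | zero =>
    rw [Finset.card_eq_zero] at h
    have : τ = pl := by
      funext u
      by_contra hu
      have : u ∈ D pl τ := mem_D.2 hu
      rw [h] at this
      exact absurd this (Finset.notMem_empty u)
    subst this
    simp
  | succ k ih =>
    rw [pow_succ_card G9 β k pl τ h]
    have h0 : ∀ v ∈ D pl τ, k.factorial * (qq β / (1 + qq β)) ^ (k + 1) ≤
        (MM G9 β ^ k) pl (fl v τ) * heatBath G9 β v (fl v τ) τ := by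
      intro v hv
      have hτv : τ v = false := by
        rw [mem_D] at hv
        simpa [pl] using hv
      have hv5 : 5 ≤ v.val := by
        by_contra hlt
        push Not at hlt
        have h3 := h2 v hlt
        rw [h3] at hτv
        exact absurd hτv (by simp)
      have h3 : ∀ u : Fin 9, u.val < 5 → fl v τ u = true := by
        intro u hu
        rw [fl_ne (by rintro rfl; omega)]
        exact h2 u hu
      have h5 := ih (fl v τ) (card_fl h hv) h3
      rw [hb_one β (F3 τ h2 v hv5 hτv), pow_succ, ← mul_assoc]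
      have := qq_pos β
      exact mul_le_mul_of_nonneg_right h5 (by positivity)
    have h4 := Finset.card_nsmul_le_sum _ _ _ h0
    refine le_trans (le_of_eq ?_) h4
    rw [h, nsmul_eq_mul, Nat.factorial_succ]
    push_cast
    ring

theorem nn (β : ℝ) (k : ℕ) (σ τ : Fin 9 → Bool) : 0 ≤ (MM G9 β ^ k) σ τ :=
  pow_nn (MM_nonneg G9 β) k σ τ

/-! ### explicit configurations, starting from `x0` -/

theorem c567 {β : ℝ} (hβ : 0 ≤ β) : (MM G9 β ^ 3) x0 (fs x0 [5, 6, 7]) ≤ 6 * qq β ^ 3 := by
  have h := pow_card_le G9 β 3 x0 (fs x0 [5, 6, 7]) (by decide +kernel)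
  have h2 := ratio_le hβ (σ := x0) (τ := fs x0 [5, 6, 7]) 3 (by decide +kernel)
  refine h.trans ?_
  have : ((3 : ℕ).factorial : ℝ) = 6 := by norm_num [Nat.factorial]
  rw [this]
  linarith

theorem cgen3 {β : ℝ} (hβ : 0 ≤ β) (τ : Fin 9 → Bool) (h : (D x0 τ).card = 3)
    (h2 : HZ τ + 4 * (4 : ℕ) ≤ HZ x0) : (MM G9 β ^ 3) x0 τ ≤ 6 * qq β ^ 4 := by
  have h := pow_card_le G9 β 3 x0 τ h
  have h2 := ratio_le hβ 4 h2
  refine h.trans ?_
  have : ((3 : ℕ).factorial : ℝ) = 6 := by norm_num [Nat.factorial]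
  rw [this]
  linarith

theorem cgen4 {β : ℝ} (hβ : 0 ≤ β) (τ : Fin 9 → Bool) (h : (D x0 τ).card = 4)
    (h2 : HZ τ + 4 * (5 : ℕ) ≤ HZ x0) : (MM G9 β ^ 4) x0 τ ≤ 24 * qq β ^ 5 := by
  have h := pow_card_le G9 β 4 x0 τ h
  have h2 := ratio_le hβ 5 h2
  refine h.trans ?_
  have : ((4 : ℕ).factorial : ℝ) = 24 := by norm_num [Nat.factorial]
  rw [this]
  linarith

theorem c0567 {β : ℝ} (hβ : 0 ≤ β) :
    (MM G9 β ^ 4) x0 (fs x0 [0, 5, 6, 7]) ≤ 3 * qq β ^ 3 + 18 * qq β ^ 4 := by
  have hq := qq_pos β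
  set τ := fs x0 [0, 5, 6, 7] with hτ
  have hD : D x0 τ = {0, 5, 6, 7} := by decide +kernel
  rw [pow_succ_card G9 β 3 x0 τ (by rw [hD]; rfl), hD]
  rw [Finset.sum_insert (by decide), Finset.sum_insert (by decide), Finset.sum_insert (by decide),
    Finset.sum_singleton]
  have e0 : fl 0 τ = fs x0 [5, 6, 7] := by decide +kernel
  have b0 : (MM G9 β ^ 3) x0 (fl 0 τ) * heatBath G9 β 0 (fl 0 τ) τ ≤ 6 * qq β ^ 3 * (1 / 2) := by
    rw [hb_half β (v := 0) (τ := τ) (by decide +kernel), e0]
    exact mul_le_mul_of_nonneg_right (c567 hβ) (by norm_num)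
  have bg : ∀ v : Fin 9, (D x0 (fl v τ)).card = 3 → HZ (fl v τ) + 4 * (4 : ℕ) ≤ HZ x0 →
      (MM G9 β ^ 3) x0 (fl v τ) * heatBath G9 β v (fl v τ) τ ≤ 6 * qq β ^ 4 := by
    intro v h1 h2
    have h3 := cgen3 hβ _ h1 h2
    calc _ ≤ (6 * qq β ^ 4) * 1 :=
          mul_le_mul h3 (hb_le_one G9 β v τ) (hb_pos G9 β v τ).le (by positivity)
      _ = _ := mul_one _
  have b5 := bg 5 (by decide +kernel) (by decide +kernel)
  have b6 := bg 6 (by decide +kernel) (by decide +kernel)
  have b7 := bg 7 (by decide +kernel) (by decide +kernel)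
  linarith

theorem c5678 {β : ℝ} (hβ : 0 ≤ β) :
    (MM G9 β ^ 4) x0 (fs x0 [5, 6, 7, 8]) ≤ 24 * qq β ^ 3 := by
  have h := leaves_le hβ 4 (fs x0 [5, 6, 7, 8]) (by decide +kernel) (by decide +kernel)
  have h2 : ((D x0 (fs x0 [5, 6, 7, 8])).filter (fun v => v ≠ 8)).card = 3 := by decide +kernel
  rw [h2] at h
  have : ((4 : ℕ).factorial : ℝ) = 24 := by norm_num [Nat.factorial]
  rw [this] at h
  exact h

/-- The leading coefficient of the dominating configuration. -/
theorem ctB {β : ℝ} (hβ : 0 ≤ β) :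
    (MM G9 β ^ 5) x0 tB ≤ 3 * qq β ^ 4 + 114 * qq β ^ 5 := by
  have hq := qq_pos β
  have hD : D x0 tB = {0, 5, 6, 7, 8} := by decide +kernel
  rw [pow_succ_card G9 β 4 x0 tB (by rw [hD]; rfl), hD]
  rw [Finset.sum_insert (by decide), Finset.sum_insert (by decide), Finset.sum_insert (by decide),
    Finset.sum_insert (by decide), Finset.sum_singleton]
  have e0 : fl 0 tB = fs x0 [5, 6, 7, 8] := by decide +kernel
  have e8 : fl 8 tB = fs x0 [0, 5, 6, 7] := by decide +kernel
  have b0 : (MM G9 β ^ 4) x0 (fl 0 tB) * heatBath G9 β 0 (fl 0 tB) tB ≤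
      24 * qq β ^ 3 * qq β ^ 2 := by
    refine mul_le_mul ?_ (hb_le hβ 2 (by decide +kernel)) (hb_pos G9 β 0 tB).le (by positivity)
    rw [e0]; exact c5678 hβ
  have b8 : (MM G9 β ^ 4) x0 (fl 8 tB) * heatBath G9 β 8 (fl 8 tB) tB ≤
      (3 * qq β ^ 3 + 18 * qq β ^ 4) * qq β ^ 1 := by
    refine mul_le_mul ?_ (hb_le hβ 1 (by decide +kernel)) (hb_pos G9 β 8 tB).le (by positivity)
    rw [e8]; exact c0567 hβ
  have bg : ∀ v : Fin 9, (D x0 (fl v tB)).card = 4 → HZ (fl v tB) + 4 * (5 : ℕ) ≤ HZ x0 →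
      (MM G9 β ^ 4) x0 (fl v tB) * heatBath G9 β v (fl v tB) tB ≤ 24 * qq β ^ 5 := by
    intro v h1 h2
    have h3 := cgen4 hβ _ h1 h2
    calc _ ≤ (24 * qq β ^ 5) * 1 :=
          mul_le_mul h3 (hb_le_one G9 β v tB) (hb_pos G9 β v tB).le (by positivity)
      _ = _ := mul_one _
  have b5 := bg 5 (by decide +kernel) (by decide +kernel)
  have b6 := bg 6 (by decide +kernel) (by decide +kernel)
  have b7 := bg 7 (by decide +kernel) (by decide +kernel)
  have e1 : 24 * qq β ^ 3 * qq β ^ 2 = 24 * qq β ^ 5 := by ring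
  have e2 : (3 * qq β ^ 3 + 18 * qq β ^ 4) * qq β ^ 1 = 3 * qq β ^ 4 + 18 * qq β ^ 5 := by ring
  rw [e1] at b0
  rw [e2] at b8
  linarith

/-- the far set -/
def far : Finset (Fin 9 → Bool) := univ.filter fun τ => 5 ≤ (D x0 τ).card

theorem far_zero (β : ℝ) (k : ℕ) (hk : k < 5) : ∑ τ ∈ far, (MM G9 β ^ k) x0 τ = 0 := by
  refine Finset.sum_eq_zero fun τ hτ => ?_
  rw [far, Finset.mem_filter] at hτ
  exact pow_eq_zero G9 β k x0 τ (by omega)

/-- Upper bound for the leading coefficient of the probability to be far from `x0`. -/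
theorem far_le {β : ℝ} (hβ : 0 ≤ β) :
    ∑ τ ∈ far, (MM G9 β ^ 5) x0 τ ≤ 3 * qq β ^ 4 + (114 + 512 * 120) * qq β ^ 5 := by
  have hq := qq_pos β
  have h1 : ∀ τ ∈ far, (MM G9 β ^ 5) x0 τ ≤
      (if τ = tB then 3 * qq β ^ 4 + 114 * qq β ^ 5 else 0) + 120 * qq β ^ 5 := by
    intro τ hτ
    rw [far, Finset.mem_filter] at hτ
    have hnn : 0 ≤ (if τ = tB then 3 * qq β ^ 4 + 114 * qq β ^ 5 else 0) := by
      split_ifs
      · positivity
      · exact le_rfl
    have hf : ((5 : ℕ).factorial : ℝ) = 120 := by norm_num [Nat.factorial]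
    rcases hτ.2.eq_or_lt with h5 | h5
    · rcases F2 τ h5.symm with h | h | h
      · have := barrier hβ 5 τ h5.symm h
        rw [hf] at this
        linarith
      · rw [if_pos h, h]
        have := ctB hβ
        have : 0 ≤ 120 * qq β ^ 5 := by positivity
        linarith
      · have h6 := pow_card_le G9 β 5 x0 τ h5.symm
        have h7 := ratio_le hβ 5 h
        rw [hf] at h6
        linarith
    · rw [pow_eq_zero G9 β 5 x0 τ (by omega)]
      have : 0 ≤ 120 * qq β ^ 5 := by positivity
      linarith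
  refine (Finset.sum_le_sum h1).trans ?_
  rw [Finset.sum_add_distrib, Finset.sum_const, nsmul_eq_mul]
  have h2 : ∑ τ ∈ far, (if τ = tB then 3 * qq β ^ 4 + 114 * qq β ^ 5 else 0) ≤
      3 * qq β ^ 4 + 114 * qq β ^ 5 := by
    rw [Finset.sum_ite_eq']
    split_ifs
    · exact le_rfl
    · positivity
  have h3 : (far.card : ℝ) ≤ 512 := by
    have : far.card ≤ Fintype.card (Fin 9 → Bool) := Finset.card_le_univ _
    rw [Fintype.card_fun, Fintype.card_fin, Fintype.card_bool] at this
    exact_mod_cast this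
  have h4 : (far.card : ℝ) * (120 * qq β ^ 5) ≤ 512 * (120 * qq β ^ 5) :=
    mul_le_mul_of_nonneg_right h3 (by positivity)
  linarith

/-- Lower bound starting from all plus. -/
theorem pl_ge (β : ℝ) : 12 * (qq β / (1 + qq β)) ^ 4 ≤
    (MM G9 β ^ 5) pl (fs pl [0, 5, 6, 7, 8]) := by
  set τ := fs pl [0, 5, 6, 7, 8] with hτ
  have hD : D pl τ = {0, 5, 6, 7, 8} := by decide +kernel
  rw [pow_succ_card G9 β 4 pl τ (by rw [hD]; rfl)]
  have h1 := Finset.single_le_sum (f := fun v => (MM G9 β ^ 4) pl (fl v τ) *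
    heatBath G9 β v (fl v τ) τ) (s := D pl τ) (fun v _ => mul_nonneg (nn β 4 _ _)
      (hb_pos G9 β v τ).le) (a := 0) (by rw [hD]; decide)
  refine le_trans ?_ h1
  have h2 := leaves_ge β 4 (fl 0 τ) (by decide +kernel) (by decide +kernel)
  have h3 := hb_half β (v := 0) (τ := τ) (by decide +kernel)
  have hf : ((4 : ℕ).factorial : ℝ) = 24 := by norm_num [Nat.factorial]
  rw [hf] at h2
  simp only [h3]
  linarith

end Pool.Agent.Y989.IS
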