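import Mathlib
import Pool.Agent.Y989.IS.Est2

/-!
# The comparison of the total variation distances
-/

set_option autoImplicit false

open Finset

namespace Pool.Agent.Y989.IS

/-- total variation distance -/
noncomputable def tv {Ω : Type} [Fintype Ω] (μ ν : Ω → ℝ) : ℝ :=
  (Finset.univ : Finset (Finset Ω)).sup' ⟨∅, Finset.mem_univ _⟩
    fun A => |∑ z ∈ A, μ z - ∑ z ∈ A, ν z|

theorem tv_ge {Ω : Type} [Fintype Ω] (μ ν : Ω → ℝ) (A : Finset Ω) :
    |∑ z ∈ A, μ z - ∑ z ∈ A, ν z| ≤ tv μ ν :=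
  Finset.le_sup' (fun A => |∑ z ∈ A, μ z - ∑ z ∈ A, ν z|) (Finset.mem_univ A)

theorem tv_le_of {Ω : Type} [Fintype Ω] [DecidableEq Ω] (μ ν : Ω → ℝ)
    (hμ : ∀ z, 0 ≤ μ z) (hν : ∀ z, 0 ≤ ν z)
    (h1 : ∑ z, μ z = 1) (h2 : ∑ z, ν z = 1) {z1 z2 : Ω} (hz : z1 ≠ z2) {m : ℝ}
    (a1 : m ≤ μ z1) (a2 : m ≤ μ z2) (b1 : m ≤ ν z1) (b2 : m ≤ ν z2) :
    tv μ ν ≤ 1 - 2 * m := by
  unfold tv
  refine Finset.sup'_le _ _ fun A _ => ?_
  have key : ∀ (f g : Ω → ℝ), (∀ z, 0 ≤ f z) → (∀ z, 0 ≤ g z) → ∑ z, f z = 1 →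
      m ≤ f z1 → m ≤ f z2 → m ≤ g z1 → m ≤ g z2 → ∑ z ∈ A, f z - ∑ z ∈ A, g z ≤ 1 - 2 * m := by
    intro f g hf hg h1 a1 a2 b1 b2
    have e1 : ∑ z ∈ A, f z + ∑ z ∈ Aᶜ, f z = 1 := by rw [Finset.sum_add_sum_compl, h1]
    have e2 : ∑ z ∈ A, g z + ∑ z ∈ Aᶜ, f z = ∑ z, (if z ∈ A then g z else f z) := by
      rw [Finset.sum_ite]
      congr 1
      · refine Finset.sum_congr ?_ fun _ _ => rfl
        ext z; simp
      · refine Finset.sum_congr ?_ fun _ _ => rfl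
        ext z; simp
    have e3 : ∑ z ∈ {z1, z2}, (if z ∈ A then g z else f z) ≤
        ∑ z, (if z ∈ A then g z else f z) :=
      Finset.sum_le_sum_of_subset_of_nonneg (Finset.subset_univ _) fun z _ _ => by
        split_ifs
        · exact hg z
        · exact hf z
    rw [Finset.sum_pair hz] at e3
    have e4 : m ≤ (if z1 ∈ A then g z1 else f z1) := by split_ifs <;> assumption
    have e5 : m ≤ (if z2 ∈ A then g z2 else f z2) := by split_ifs <;> assumption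
    linarith
  rw [abs_le]
  constructor
  · have := key ν μ hν hμ h2 b1 b2 a1 a2
    linarith
  · exact key μ ν hμ hν h1 a1 a2 b1 b2

theorem sg_neg (β t : ℝ) (σ τ : Fin 9 → Bool) :
    sg (MM G9 β) 9 t (neg σ) (neg τ) = sg (MM G9 β) 9 t σ τ := by
  unfold sg
  rw [exp_shift, exp_shift]
  congr 1
  refine (hasSum_exp_entry (MM G9 β) t (neg σ) (neg τ)).unique ?_
  have h := hasSum_exp_entry (MM G9 β) t σ τ
  simp only [pow_neg']
  exact h

theorem card_D_neg (τ : Fin 9 → Bool) : (D x0 (neg τ)).card = 9 - (D x0 τ).card := by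
  have h : D x0 (neg τ) = (D x0 τ)ᶜ := by
    ext u
    rw [mem_D, Finset.mem_compl, mem_D, neg]
    cases τ u <;> cases x0 u <;> simp
  rw [h, Finset.card_compl, Fintype.card_fin]

theorem far_compl (f : (Fin 9 → Bool) → ℝ) : ∑ z ∈ farᶜ, f z = ∑ z ∈ far, f (neg z) := by
  symm
  refine Finset.sum_bij' (fun z _ => neg z) (fun z _ => neg z) ?_ ?_ ?_ ?_ ?_
  · intro z hz
    rw [Finset.mem_compl, far, Finset.mem_filter]
    rw [far, Finset.mem_filter] at hz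
    rw [card_D_neg]
    have := hz.2
    intro h
    omega
  · intro z hz
    rw [Finset.mem_compl, far, Finset.mem_filter] at hz
    rw [far, Finset.mem_filter, card_D_neg]
    have : ¬ 5 ≤ (D x0 z).card := fun h => hz ⟨Finset.mem_univ _, h⟩
    exact ⟨Finset.mem_univ _, by omega⟩
  · intro z _; exact neg_neg' z
  · intro z _; exact neg_neg' z
  · intro z _; rfl

theorem row1 (β t : ℝ) (σ : Fin 9 → Bool) : ∑ z, sg (MM G9 β) 9 t σ z = 1 :=
  sg_row (fun x => by rw [MM_row]; simp) t σ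

theorem sgnn (β : ℝ) {t : ℝ} (ht : 0 ≤ t) (σ τ : Fin 9 → Bool) : 0 ≤ sg (MM G9 β) 9 t σ τ :=
  sg_nonneg (MM_nonneg G9 β) ht σ τ

/-- Lower bound for the total variation distance between the laws started at `x0` and `-x0`. -/
theorem tv_x0 (β : ℝ) (hβ : 0 ≤ β) {t : ℝ} (ht : 0 ≤ t) (ht1 : t ≤ 1) :
    1 - 2 * (1 / 120 * t ^ 5 * (3 * qq β ^ 4 + (114 + 512 * 120) * qq β ^ 5) +
      t ^ 6 * Real.exp 9) ≤
      tv (sg (MM G9 β) 9 t x0) (sg (MM G9 β) 9 t (neg x0)) := by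
  set ε := ∑ z ∈ far, sg (MM G9 β) 9 t x0 z with hε
  have h1 : ∑ z ∈ far, sg (MM G9 β) 9 t (neg x0) z = 1 - ε := by
    have e1 := Finset.sum_add_sum_compl far (fun z => sg (MM G9 β) 9 t (neg x0) z)
    rw [row1, far_compl] at e1
    simp only [sg_neg] at e1
    linarith
  have h2 : ε ≤ (Nat.factorial 5 : ℝ)⁻¹ * t ^ 5 * ∑ y ∈ far, (MM G9 β ^ 5) x0 y +
      t ^ (5 + 1) * Real.exp 9 :=
    sg_upper (MM_nonneg G9 β) (c := 9) (fun x => by rw [MM_row]; simp) (by norm_num) ht ht1 x0 far 5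
      (far_zero β)
  have h3 := far_le hβ
  have h4 : (Nat.factorial 5 : ℝ)⁻¹ * t ^ 5 * ∑ y ∈ far, (MM G9 β ^ 5) x0 y ≤
      1 / 120 * t ^ 5 * (3 * qq β ^ 4 + (114 + 512 * 120) * qq β ^ 5) := by
    have hf : ((5 : ℕ).factorial : ℝ)⁻¹ = 1 / 120 := by norm_num [Nat.factorial]
    rw [hf]
    exact mul_le_mul_of_nonneg_left h3 (by positivity)
  have h5 := tv_ge (sg (MM G9 β) 9 t x0) (sg (MM G9 β) 9 t (neg x0)) far
  rw [h1, ← hε] at h5
  have h6 := neg_abs_le (ε - (1 - ε))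
  have h7 : t ^ (5 + 1) = t ^ 6 := rfl
  rw [h7] at h2
  linarith

/-- Upper bound for the total variation distance between the laws started at `+` and `-`. -/
theorem tv_pl (β : ℝ) {t : ℝ} (ht : 0 ≤ t)
    (hsmall : t * (12 * (qq β / (1 + qq β)) ^ 4) ≤
      5 * (MM G9 β ^ 4) pl (fs pl [1, 2, 3, 4])) :
    tv (sg (MM G9 β) 9 t pl) (sg (MM G9 β) 9 t (neg pl)) ≤
      1 - 2 * (Real.exp (-(9 * t)) * (1 / 120 * t ^ 5 * (12 * (qq β / (1 + qq β)) ^ 4))) := by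
  have hf5 : ((5 : ℕ).factorial : ℝ)⁻¹ = 1 / 120 := by norm_num [Nat.factorial]
  have hf4 : ((4 : ℕ).factorial : ℝ)⁻¹ = 1 / 24 := by norm_num [Nat.factorial]
  have hE := Real.exp_pos (-(9 * t))
  set z1 := fs pl [0, 5, 6, 7, 8] with hz1
  set z2 := fs pl [1, 2, 3, 4] with hz2
  have hn12 : neg z1 = z2 := by decide +kernel
  have hn21 : neg z2 = z1 := by decide +kernel
  have a1 : Real.exp (-(9 * t)) * (1 / 120 * t ^ 5 * (12 * (qq β / (1 + qq β)) ^ 4)) ≤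
      sg (MM G9 β) 9 t pl z1 := by
    refine le_trans ?_ (sg_lower (c := 9) (MM_nonneg G9 β) ht pl z1 5)
    rw [hf5]
    refine mul_le_mul_of_nonneg_left ?_ hE.le
    exact mul_le_mul_of_nonneg_left (pl_ge β) (by positivity)
  have a2 : Real.exp (-(9 * t)) * (1 / 120 * t ^ 5 * (12 * (qq β / (1 + qq β)) ^ 4)) ≤
      sg (MM G9 β) 9 t pl z2 := by
    refine le_trans ?_ (sg_lower (c := 9) (MM_nonneg G9 β) ht pl z2 4)
    rw [hf4]
    refine mul_le_mul_of_nonneg_left ?_ hE.le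
    have ht4 : 0 ≤ t ^ 4 := by positivity
    have := mul_le_mul_of_nonneg_left hsmall ht4
    nlinarith
  have b2 : Real.exp (-(9 * t)) * (1 / 120 * t ^ 5 * (12 * (qq β / (1 + qq β)) ^ 4)) ≤
      sg (MM G9 β) 9 t (neg pl) z2 := by
    rw [← hn12, sg_neg]; exact a1
  have b1 : Real.exp (-(9 * t)) * (1 / 120 * t ^ 5 * (12 * (qq β / (1 + qq β)) ^ 4)) ≤
      sg (MM G9 β) 9 t (neg pl) z1 := by
    rw [← hn21, sg_neg]; exact a2
  exact tv_le_of _ _ (sgnn β ht pl) (sgnn β ht (neg pl)) (row1 β t pl) (row1 β t (neg pl))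
    (z1 := z1) (z2 := z2) (by decide +kernel) a1 a2 b1 b2

theorem main (β : ℝ) (hβ : 5 ≤ β) : ∃ t₀ : ℝ, 0 < t₀ ∧ ∀ t : ℝ, 0 < t → t ≤ t₀ →
    tv (kernel G9 β t pl) (kernel G9 β t (neg pl)) <
      tv (kernel G9 β t x0) (kernel G9 β t (neg x0)) := by
  have hβ0 : 0 ≤ β := by linarith
  set q := qq β with hqd
  have hq : 0 < q := qq_pos β
  have hq1 : q ≤ 1 / 20000 := by
    rw [hqd, qq, one_div]
    have h1 : Real.exp (-2 * β) ≤ Real.exp (-10) := Real.exp_le_exp.2 (by linarith)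
    refine h1.trans ?_
    rw [Real.exp_neg]
    refine inv_anti₀ (by norm_num) ?_
    have h2 : Real.exp 10 = Real.exp 1 ^ 10 := by
      rw [← Real.exp_nat_mul]; norm_num
    rw [h2]
    have h3 := Real.exp_one_gt_d9
    calc (20000 : ℝ) ≤ 2.7182818283 ^ 10 := by norm_num
      _ ≤ Real.exp 1 ^ 10 := by gcongr
  set κ := (MM G9 β ^ 4) pl (fs pl [1, 2, 3, 4]) with hκd
  have hκ : 0 < κ := pow_card_pos G9 β 4 pl _ (by decide +kernel)
  set w := 12 * (q / (1 + q)) ^ 4 with hw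
  have hq4 : 0 < q ^ 4 := by positivity
  have hw_le : w ≤ 12 * q ^ 4 := by
    rw [hw]
    have : q / (1 + q) ≤ q := div_le_self hq.le (by linarith)
    have := pow_le_pow_left₀ (by positivity) this 4
    linarith
  have hw_ge : 11 * q ^ 4 ≤ w := by
    rw [hw, div_pow, ← mul_div_assoc, le_div_iff₀ (by positivity)]
    have h1 : (1 + q) ^ 4 ≤ (1 + 1 / 20000) ^ 4 := by gcongr
    have h2 : ((1 : ℝ) + 1 / 20000) ^ 4 ≤ 12 / 11 := by norm_num
    nlinarith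
  have hw12 : w ≤ 12 := by
    have : q ^ 4 ≤ 1 := pow_le_one₀ hq.le (by linarith)
    linarith
  have hE9 := Real.exp_pos 9
  refine ⟨min 1 (min (κ / 3) (q ^ 4 / (108 + 120 * Real.exp 9))), by positivity, ?_⟩
  intro t ht htt
  have t1 : t ≤ 1 := htt.trans (min_le_left _ _)
  have t2 : t ≤ κ / 3 := htt.trans ((min_le_right _ _).trans (min_le_left _ _))
  have t3 : t ≤ q ^ 4 / (108 + 120 * Real.exp 9) :=
    htt.trans ((min_le_right _ _).trans (min_le_right _ _))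
  rw [le_div_iff₀ (by positivity)] at t3
  have hk : ∀ s, kernel G9 β t s = sg (MM G9 β) 9 t s := by
    intro s
    rw [kernel_eq]
    simp
  rw [hk, hk, hk, hk]
  have hA := tv_x0 β hβ0 ht.le t1
  have hB := tv_pl β ht.le (by
    rw [← hqd, ← hw, ← hκd]
    have : t * w ≤ t * 12 := mul_le_mul_of_nonneg_left hw12 ht.le
    linarith)
  rw [← hqd] at hA
  rw [← hqd, ← hw] at hB
  refine lt_of_le_of_lt hB (lt_of_lt_of_le ?_ hA)
  have hexp : 1 - 9 * t ≤ Real.exp (-(9 * t)) := by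
    have := Real.add_one_le_exp (-(9 * t))
    linarith
  have ht5 : 0 < t ^ 5 := by positivity
  -- reduce to the comparison of leading coefficients
  have hmain : 1 / 120 * (3 * q ^ 4 + (114 + 512 * 120) * q ^ 5) + t * Real.exp 9 <
      Real.exp (-(9 * t)) * (1 / 120 * w) := by
    have e1 : q ^ 5 ≤ 1 / 20000 * q ^ 4 := by
      have : q ^ 5 = q * q ^ 4 := by ring
      rw [this]
      exact mul_le_mul_of_nonneg_right hq1 hq4.le
    have hw0 : 0 < w := by linarith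
    have e2 : (1 - 9 * t) * (1 / 120 * w) ≤ Real.exp (-(9 * t)) * (1 / 120 * w) :=
      mul_le_mul_of_nonneg_right hexp (by positivity)
    have e3 : 9 * t * w ≤ 9 * t * 12 := mul_le_mul_of_nonneg_left hw12 (by positivity)
    nlinarith
  have := mul_lt_mul_of_pos_left hmain ht5
  nlinarith

end Pool.Agent.Y989.IS
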